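import Mathlib
import Pool.Agent.SVM.PLOne

set_option autoImplicit false

/-!
# Concentration for the Gaussian product measure (project SVG, MP_aa9902_co)

Property (tau) of Maurey for the standard Gaussian product measure, from the one-dimensional
Prekopa-Leindler inequality by tensorisation, and the consequences which are needed.
-/

namespace Pool.Agent.SVG

open MeasureTheory ProbabilityTheory Finset
open scoped ENNReal

/-- standard Gaussian measure on `ι → ℝ` -/
noncomputable abbrev gam (ι : Type*) [Fintype ι] : Measure (ι → ℝ) :=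
  Measure.pi (fun _ : ι => gaussianReal 0 1)

theorem gpdf_eq (x : ℝ) : gaussianPDF 0 1 x =
    ENNReal.ofReal ((Real.sqrt (2 * Real.pi))⁻¹) * ENNReal.ofReal (Real.exp (-(x ^ 2 / 2))) := by
  rw [gaussianPDF, gaussianPDFReal, ← ENNReal.ofReal_mul (by positivity)]
  congr 1
  simp only [NNReal.coe_one, mul_one, sub_zero]
  congr 2
  ring

theorem tau_one (F G : ℝ → ℝ≥0∞) (hF : Measurable F) (hG : Measurable G)
    (H : ∀ s t, F s * G t ≤ ENNReal.ofReal (Real.exp ((s - t) ^ 2 / 4))) :
    (∫⁻ x, F x ∂(gaussianReal 0 1)) * (∫⁻ x, G x ∂(gaussianReal 0 1)) ≤ 1 := by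
  rw [gaussianReal_of_var_ne_zero _ one_ne_zero,
    lintegral_withDensity_eq_lintegral_mul _ (measurable_gaussianPDF _ _) hF,
    lintegral_withDensity_eq_lintegral_mul _ (measurable_gaussianPDF _ _) hG]
  have h1 := Pool.Agent.SVM.pl_one (fun x => gaussianPDF 0 1 x * F x)
    (fun x => gaussianPDF 0 1 x * G x) (fun x => gaussianPDF 0 1 x)
    ((measurable_gaussianPDF _ _).mul hF) ((measurable_gaussianPDF _ _).mul hG)
    (measurable_gaussianPDF _ _) (fun s t => ?_)
  · rw [lintegral_gaussianPDF_eq_one 0 one_ne_zero, one_pow] at h1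
    exact h1
  · have h2 := H s t
    calc gaussianPDF 0 1 s * F s * (gaussianPDF 0 1 t * G t)
        = (gaussianPDF 0 1 s * gaussianPDF 0 1 t) * (F s * G t) := by ring
      _ ≤ (gaussianPDF 0 1 s * gaussianPDF 0 1 t) *
            ENNReal.ofReal (Real.exp ((s - t) ^ 2 / 4)) := mul_le_mul' le_rfl h2
      _ = gaussianPDF 0 1 ((s + t) / 2) ^ 2 := by
          rw [gpdf_eq, gpdf_eq, gpdf_eq, mul_pow]
          have e1 : ENNReal.ofReal (Real.exp (-(s ^ 2 / 2))) * ENNReal.ofReal (Real.exp (-(t ^ 2 / 2))) *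
              ENNReal.ofReal (Real.exp ((s - t) ^ 2 / 4)) =
              ENNReal.ofReal (Real.exp (-(((s + t) / 2) ^ 2 / 2))) ^ 2 := by
            rw [← ENNReal.ofReal_mul (by positivity), ← ENNReal.ofReal_mul (by positivity),
              ← ENNReal.ofReal_pow (by positivity), ← Real.exp_add, ← Real.exp_add, ← Real.exp_nat_mul]
            congr 2
            push_cast
            ring
          rw [← e1]
          ring

theorem tau_fin (n : ℕ) : ∀ (F G : (Fin n → ℝ) → ℝ≥0∞) (_ : Measurable F) (_ : Measurable G)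
    (_ : ∀ x y, F x * G y ≤ ENNReal.ofReal (Real.exp ((∑ i, (x i - y i) ^ 2) / 4))),
    (∫⁻ x, F x ∂(gam (Fin n))) * (∫⁻ x, G x ∂(gam (Fin n))) ≤ 1 := by
  induction n with
  | zero =>
    intro F G hF hG H
    have hv : gam (Fin 0) = Measure.dirac isEmptyElim := by
      rw [gam, Measure.pi_of_empty]
    rw [hv, lintegral_dirac' _ hF, lintegral_dirac' _ hG]
    refine (H _ _).trans (le_of_eq ?_)
    simp
  | succ n ih =>
    intro F G hF hG H
    have hsplit : ∀ f : (Fin (n + 1) → ℝ) → ℝ≥0∞, Measurable f →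
        Measurable (fun s : ℝ => ∫⁻ x : Fin n → ℝ, f (Fin.cons s x) ∂(gam (Fin n))) ∧
        (∀ s : ℝ, Measurable fun x : Fin n → ℝ => f (Fin.cons s x)) ∧
        ∫⁻ x, f x ∂(gam (Fin (n + 1))) =
          ∫⁻ s : ℝ, ∫⁻ x : Fin n → ℝ, f (Fin.cons s x) ∂(gam (Fin n)) ∂(gaussianReal 0 1) := by
      intro f hf
      set e := MeasurableEquiv.piFinSuccAbove (fun _ : Fin (n + 1) => ℝ) 0 with he
      have hes : ∀ p : ℝ × (Fin n → ℝ), e.symm p = Fin.cons p.1 p.2 := by
        intro p
        rw [he]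
        ext i
        refine Fin.cases ?_ (fun j => ?_) i
        · simp [MeasurableEquiv.piFinSuccAbove]
        · simp [MeasurableEquiv.piFinSuccAbove]
      have hm : Measurable fun p : ℝ × (Fin n → ℝ) => f (Fin.cons p.1 p.2) := by
        have h1 : (fun p : ℝ × (Fin n → ℝ) => f (Fin.cons p.1 p.2)) = fun p => f (e.symm p) := by
          funext p
          rw [hes]
        rw [h1]
        exact hf.comp e.symm.measurable
      refine ⟨hm.lintegral_prod_right', fun s => hm.comp measurable_prodMk_left, ?_⟩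
      have hmp := (measurePreserving_piFinSuccAbove
        (fun _ : Fin (n + 1) => gaussianReal 0 1) 0).symm
      have h2 := hmp.lintegral_comp hf
      rw [gam, ← h2]
      have h1 : ∀ p : ℝ × (Fin n → ℝ),
          f ((MeasurableEquiv.piFinSuccAbove (fun _ : Fin (n + 1) => ℝ) 0).symm p) =
            f (Fin.cons p.1 p.2) := fun p => by rw [← he, hes]
      rw [lintegral_congr h1, lintegral_prod _ hm.aemeasurable]
    obtain ⟨f1, f2, f3⟩ := hsplit F hF
    obtain ⟨g1, g2, g3⟩ := hsplit G hG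
    rw [f3, g3]
    refine tau_one _ _ f1 g1 fun s t => ?_
    set c : ℝ≥0∞ := ENNReal.ofReal (Real.exp (-((s - t) ^ 2 / 4))) with hc
    set c' : ℝ≥0∞ := ENNReal.ofReal (Real.exp ((s - t) ^ 2 / 4)) with hc'
    have hcc : c * c' = 1 := by
      rw [hc, hc', ← ENNReal.ofReal_mul (by positivity), ← Real.exp_add]
      simp
    have h1 := ih (fun x => F (Fin.cons s x)) (fun x => c * G (Fin.cons t x)) (f2 s)
      ((g2 t).const_mul c) (fun x y => ?_)
    · rw [lintegral_const_mul _ (g2 t)] at h1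
      calc (∫⁻ x, F (Fin.cons s x) ∂(gam (Fin n))) * (∫⁻ x, G (Fin.cons t x) ∂(gam (Fin n)))
          = ((∫⁻ x, F (Fin.cons s x) ∂(gam (Fin n))) *
              (c * ∫⁻ x, G (Fin.cons t x) ∂(gam (Fin n)))) * c' := by
            rw [mul_assoc, mul_comm c, mul_assoc (∫⁻ x, G (Fin.cons t x) ∂(gam (Fin n))), hcc, mul_one]
        _ ≤ 1 * c' := mul_le_mul' h1 le_rfl
        _ = c' := one_mul _
    · have h2 := H (Fin.cons s x) (Fin.cons t y)
      rw [Fin.sum_univ_succ] at h2
      simp only [Fin.cons_zero, Fin.cons_succ] at h2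
      calc F (Fin.cons s x) * (c * G (Fin.cons t y)) = c * (F (Fin.cons s x) * G (Fin.cons t y)) := by
            ring
        _ ≤ c * ENNReal.ofReal (Real.exp (((s - t) ^ 2 + ∑ i, (x i - y i) ^ 2) / 4)) :=
            mul_le_mul' le_rfl h2
        _ = ENNReal.ofReal (Real.exp ((∑ i, (x i - y i) ^ 2) / 4)) := by
            rw [hc, ← ENNReal.ofReal_mul (by positivity), ← Real.exp_add]
            congr 2
            ring

variable {ι : Type*} [Fintype ι]

/-- Property (tau) for the Gaussian product measure. -/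
theorem tau (F G : (ι → ℝ) → ℝ≥0∞) (hF : Measurable F) (hG : Measurable G)
    (H : ∀ x y, F x * G y ≤ ENNReal.ofReal (Real.exp ((∑ i, (x i - y i) ^ 2) / 4))) :
    (∫⁻ x, F x ∂(gam ι)) * (∫⁻ x, G x ∂(gam ι)) ≤ 1 := by
  classical
  set e : ι ≃ Fin (Fintype.card ι) := Fintype.equivFin ι with he
  have hmp := (measurePreserving_piCongrLeft
    (fun _ : Fin (Fintype.card ι) => gaussianReal 0 1) e).symm
  have hes : ∀ x : Fin (Fintype.card ι) → ℝ,
      (MeasurableEquiv.piCongrLeft (fun _ : Fin (Fintype.card ι) => ℝ) e).symm x =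
        fun i => x (e i) := by
    intro x
    rfl
  have hmeas : Measurable fun x : Fin (Fintype.card ι) → ℝ => fun i => x (e i) :=
    measurable_pi_iff.2 fun i => measurable_pi_apply _
  have key : ∀ f : (ι → ℝ) → ℝ≥0∞, Measurable f →
      ∫⁻ x, f x ∂(gam ι) = ∫⁻ x : Fin (Fintype.card ι) → ℝ, f (fun i => x (e i))
        ∂(gam (Fin (Fintype.card ι))) := by
    intro f hf
    have h2 := hmp.lintegral_comp hf
    rw [gam, gam, ← h2]
    exact lintegral_congr fun x => by rw [hes]
  rw [key F hF, key G hG]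
  refine tau_fin _ _ _ (hF.comp hmeas) (hG.comp hmeas) fun x y => ?_
  refine (H _ _).trans (le_of_eq ?_)
  congr 3
  exact Equiv.sum_comp e (fun i => (x i - y i) ^ 2)

end Pool.Agent.SVG
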