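import Mathlib
import Pool.Agent.SVG.Tau

set_option autoImplicit false

/-!
# Concentration of Lipschitz functions for the Gaussian product measure
-/

namespace Pool.Agent.SVG

open MeasureTheory ProbabilityTheory Finset
open scoped ENNReal NNReal

variable {ι : Type*} [Fintype ι]

/-- `f` is `L`-Lipschitz for the Euclidean norm -/
def Lip2 (L : ℝ) (f : (ι → ℝ) → ℝ) : Prop :=
  ∀ x y, (f x - f y) ^ 2 ≤ L ^ 2 * ∑ i, (x i - y i) ^ 2

theorem Lip2.abs_le {L : ℝ} {f : (ι → ℝ) → ℝ} (h : Lip2 L f) (hL : 0 ≤ L) (x y : ι → ℝ) :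
    |f x - f y| ≤ L * Real.sqrt (∑ i, (x i - y i) ^ 2) := by
  have h1 := Real.sqrt_le_sqrt (h x y)
  rw [Real.sqrt_sq_eq_abs, Real.sqrt_mul (sq_nonneg L), Real.sqrt_sq hL] at h1
  exact h1

theorem Lip2.continuous {L : ℝ} {f : (ι → ℝ) → ℝ} (h : Lip2 L f) : Continuous f := by
  have h' : Lip2 |L| f := fun x y => by rw [sq_abs]; exact h x y
  rw [continuous_iff_continuousAt]
  intro x
  rw [ContinuousAt, tendsto_iff_dist_tendsto_zero]
  have h0 : Continuous (fun y : ι → ℝ => |L| * Real.sqrt (∑ i, (y i - x i) ^ 2)) := by fun_prop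
  have h1 : Filter.Tendsto (fun y : ι → ℝ => |L| * Real.sqrt (∑ i, (y i - x i) ^ 2)) (nhds x)
      (nhds 0) := by
    have h2 := h0.tendsto x
    simpa using h2
  exact squeeze_zero (fun y => dist_nonneg) (fun y => by
    rw [Real.dist_eq]; exact h'.abs_le (abs_nonneg L) y x) h1

theorem Lip2.measurable {L : ℝ} {f : (ι → ℝ) → ℝ} (h : Lip2 L f) : Measurable f :=
  h.continuous.measurable

/-- two sets at distance `t` -/
theorem enlarge (A B : Set (ι → ℝ)) (hA : MeasurableSet A) (hB : MeasurableSet B) (t : ℝ)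
    (h : ∀ x ∈ A, ∀ y ∈ B, t ^ 2 ≤ ∑ i, (x i - y i) ^ 2) :
    gam ι A * gam ι B ≤ ENNReal.ofReal (Real.exp (-(t ^ 2 / 4))) := by
  have h1 := tau (A.indicator 1) (B.indicator (fun _ => ENNReal.ofReal (Real.exp (t ^ 2 / 4))))
    (measurable_one.indicator hA) (measurable_const.indicator hB) (fun x y => ?_)
  · rw [lintegral_indicator_one hA, lintegral_indicator_const hB] at h1
    have hcc : ENNReal.ofReal (Real.exp (t ^ 2 / 4)) * ENNReal.ofReal (Real.exp (-(t ^ 2 / 4))) = 1 := by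
      rw [← ENNReal.ofReal_mul (by positivity), ← Real.exp_add]
      simp
    calc gam ι A * gam ι B = (gam ι A * (ENNReal.ofReal (Real.exp (t ^ 2 / 4)) * gam ι B)) *
          ENNReal.ofReal (Real.exp (-(t ^ 2 / 4))) := by
          rw [mul_assoc, mul_comm (ENNReal.ofReal (Real.exp (t ^ 2 / 4))), mul_assoc, hcc, mul_one]
      _ ≤ 1 * ENNReal.ofReal (Real.exp (-(t ^ 2 / 4))) := mul_le_mul' h1 le_rfl
      _ = _ := one_mul _
  · by_cases hx : x ∈ A
    · by_cases hy : y ∈ B
      · simp only [Set.indicator_of_mem hx, Set.indicator_of_mem hy, Pi.one_apply, one_mul]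
        exact ENNReal.ofReal_le_ofReal (Real.exp_le_exp.2 (by linarith [h x hx y hy]))
      · simp [Set.indicator_of_notMem hy]
    · simp [Set.indicator_of_notMem hx]

/-- two sets at distance `t`, the first of measure at least one half -/
theorem enlarge_half (A B : Set (ι → ℝ)) (hA : MeasurableSet A) (hB : MeasurableSet B) (t : ℝ)
    (h : ∀ x ∈ A, ∀ y ∈ B, t ^ 2 ≤ ∑ i, (x i - y i) ^ 2) (hA2 : 1 / 2 ≤ gam ι A) :
    gam ι B ≤ 2 * ENNReal.ofReal (Real.exp (-(t ^ 2 / 4))) := by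
  have h1 := enlarge A B hA hB t h
  have h2 : (1 / 2 : ℝ≥0∞) * gam ι B ≤ ENNReal.ofReal (Real.exp (-(t ^ 2 / 4))) :=
    (mul_le_mul' hA2 le_rfl).trans h1
  calc gam ι B = 2 * ((1 / 2 : ℝ≥0∞) * gam ι B) := by
        rw [← mul_assoc, one_div, ENNReal.mul_inv_cancel (by norm_num) (by norm_num), one_mul]
    _ ≤ _ := mul_le_mul' le_rfl h2

theorem tau_exp {L : ℝ} {f : (ι → ℝ) → ℝ} (h : Lip2 L f) (s : ℝ) :
    (∫⁻ x, ENNReal.ofReal (Real.exp (s * f x)) ∂(gam ι)) *
      (∫⁻ x, ENNReal.ofReal (Real.exp (-s * f x)) ∂(gam ι)) ≤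
      ENNReal.ofReal (Real.exp (s ^ 2 * L ^ 2)) := by
  have hf := h.measurable
  have h1 := tau (ι := ι) (fun x => ENNReal.ofReal (Real.exp (s * f x)))
    (fun x => ENNReal.ofReal (Real.exp (-(s ^ 2 * L ^ 2))) * ENNReal.ofReal (Real.exp (-s * f x)))
    (by fun_prop) (by fun_prop) (fun x y => ?_)
  · rw [lintegral_const_mul _ (by fun_prop)] at h1
    have hcc : ENNReal.ofReal (Real.exp (-(s ^ 2 * L ^ 2))) *
        ENNReal.ofReal (Real.exp (s ^ 2 * L ^ 2)) = 1 := by
      rw [← ENNReal.ofReal_mul (by positivity), ← Real.exp_add]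
      simp
    set a := ∫⁻ x, ENNReal.ofReal (Real.exp (s * f x)) ∂(gam ι)
    set b := ∫⁻ x, ENNReal.ofReal (Real.exp (-s * f x)) ∂(gam ι)
    calc a * b = (a * (ENNReal.ofReal (Real.exp (-(s ^ 2 * L ^ 2))) * b)) *
          ENNReal.ofReal (Real.exp (s ^ 2 * L ^ 2)) := by
          rw [mul_assoc, mul_comm (ENNReal.ofReal (Real.exp (-(s ^ 2 * L ^ 2)))), mul_assoc b, hcc,
            mul_one]
      _ ≤ 1 * ENNReal.ofReal (Real.exp (s ^ 2 * L ^ 2)) := mul_le_mul' h1 le_rfl
      _ = _ := one_mul _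
  · rw [← ENNReal.ofReal_mul (by positivity), ← ENNReal.ofReal_mul (by positivity), ← Real.exp_add,
      ← Real.exp_add]
    refine ENNReal.ofReal_le_ofReal (Real.exp_le_exp.2 ?_)
    have h2 := h x y
    have h3 : s * (f x - f y) ≤ s ^ 2 * L ^ 2 + (∑ i, (x i - y i) ^ 2) / 4 := by
      by_cases hL : L = 0
      · subst hL
        have h4 : (f x - f y) ^ 2 ≤ 0 := by simpa using h2
        have h5 : f x - f y = 0 := by nlinarith [sq_nonneg (f x - f y)]
        rw [h5]
        have : 0 ≤ ∑ i, (x i - y i) ^ 2 := Finset.sum_nonneg fun i _ => sq_nonneg _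
        nlinarith
      · have hL2 : 0 < L ^ 2 := by positivity
        have h4 : (f x - f y) ^ 2 / L ^ 2 ≤ ∑ i, (x i - y i) ^ 2 := by
          rw [div_le_iff₀ hL2]
          linarith
        have h5 : s * (f x - f y) ≤ s ^ 2 * L ^ 2 + (f x - f y) ^ 2 / L ^ 2 / 4 := by
          have h6 : 0 ≤ (s * L - (f x - f y) / L / 2) ^ 2 := sq_nonneg _
          have h7 : (s * L - (f x - f y) / L / 2) ^ 2 =
              s ^ 2 * L ^ 2 - s * (f x - f y) + (f x - f y) ^ 2 / L ^ 2 / 4 := by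
            field_simp
            ring
          linarith
        linarith
    linarith

theorem exp_int {L : ℝ} {f : (ι → ℝ) → ℝ} (h : Lip2 L f) (s : ℝ) :
    Integrable (fun x => Real.exp (s * f x)) (gam ι) := by
  have hf := h.measurable
  have h1 := tau_exp h s
  refine ⟨by fun_prop, ?_⟩
  rw [hasFiniteIntegral_iff_ofReal (Filter.Eventually.of_forall fun x => (Real.exp_pos _).le)]
  have h2 : ∫⁻ x, ENNReal.ofReal (Real.exp (-s * f x)) ∂(gam ι) ≠ 0 := by
    rw [Ne, lintegral_eq_zero_iff (by fun_prop)]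
    intro h3
    have h4 : ∀ᵐ x ∂(gam ι), False := by
      filter_upwards [h3] with x hx
      have h5 : 0 < ENNReal.ofReal (Real.exp (-s * f x)) := ENNReal.ofReal_pos.2 (Real.exp_pos _)
      rw [hx] at h5
      simp at h5
    have h6 : gam ι = 0 := by simpa using h4
    exact IsProbabilityMeasure.ne_zero (gam ι) h6
  by_contra h3
  rw [not_lt, top_le_iff] at h3
  rw [h3, ENNReal.top_mul h2] at h1
  exact absurd h1 (by simp)

theorem integrable_of_lip {L : ℝ} {f : (ι → ℝ) → ℝ} (h : Lip2 L f) : Integrable f (gam ι) := by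
  have h0 : integrableExpSet f (gam ι) = Set.univ := by
    ext s
    simp only [integrableExpSet, Set.mem_ofPred_eq, Set.mem_univ, iff_true]
    exact exp_int h s
  have h1 := integrable_pow_of_mem_interior_integrableExpSet (X := f) (μ := gam ι)
    (by rw [h0]; simp) 1
  simpa using h1

theorem mgf_le {L : ℝ} {f : (ι → ℝ) → ℝ} (h : Lip2 L f) (s : ℝ) :
    ∫ x, Real.exp (s * (f x - ∫ y, f y ∂(gam ι))) ∂(gam ι) ≤ Real.exp (s ^ 2 * L ^ 2) := by
  have hf := h.measurable
  have h1 := tau_exp h s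
  have ha := ofReal_integral_eq_lintegral_ofReal (exp_int h s)
    (Filter.Eventually.of_forall fun x => (Real.exp_pos _).le)
  have hb := ofReal_integral_eq_lintegral_ofReal (exp_int h (-s))
    (Filter.Eventually.of_forall fun x => (Real.exp_pos _).le)
  have ha' : ∫⁻ x, ENNReal.ofReal (Real.exp (s * f x)) ∂(gam ι) =
      ENNReal.ofReal (∫ x, Real.exp (s * f x) ∂(gam ι)) := ha.symm
  have hb' : ∫⁻ x, ENNReal.ofReal (Real.exp (-s * f x)) ∂(gam ι) =
      ENNReal.ofReal (∫ x, Real.exp (-s * f x) ∂(gam ι)) := hb.symm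
  rw [ha', hb', ← ENNReal.ofReal_mul (integral_nonneg fun x => (Real.exp_pos _).le),
    ENNReal.ofReal_le_ofReal_iff (Real.exp_pos _).le] at h1
  have hJ : Real.exp (∫ x, -s * f x ∂(gam ι)) ≤ ∫ x, Real.exp (-s * f x) ∂(gam ι) :=
    convexOn_exp.map_integral_le Real.continuous_exp.continuousOn isClosed_univ
      (Filter.Eventually.of_forall fun _ => Set.mem_univ _) ((integrable_of_lip h).const_mul _)
      (exp_int h (-s))
  rw [integral_const_mul] at hJ
  have e1 : ∫ x, Real.exp (s * (f x - ∫ y, f y ∂(gam ι))) ∂(gam ι) =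
      (∫ x, Real.exp (s * f x) ∂(gam ι)) * Real.exp (-s * ∫ y, f y ∂(gam ι)) := by
    rw [← integral_mul_const]
    refine integral_congr_ae (Filter.Eventually.of_forall fun x => ?_)
    simp only
    rw [← Real.exp_add]
    congr 1
    ring
  rw [e1]
  exact (mul_le_mul_of_nonneg_left hJ (integral_nonneg fun x => (Real.exp_pos _).le)).trans h1

theorem subg {L : ℝ} {f : (ι → ℝ) → ℝ} (h : Lip2 L f) :
    HasSubgaussianMGF (fun x => f x - ∫ y, f y ∂(gam ι)) (⟨2 * L ^ 2, by positivity⟩ : ℝ≥0)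
      (gam ι) := by
  refine ⟨fun s => ?_, fun s => ?_⟩
  · have h1 := (exp_int h s).mul_const (Real.exp (-s * ∫ y, f y ∂(gam ι)))
    refine h1.congr (Filter.Eventually.of_forall fun x => ?_)
    simp only
    rw [← Real.exp_add]
    congr 1
    ring
  · refine (mgf_le h s).trans (le_of_eq ?_)
    congr 1
    change s ^ 2 * L ^ 2 = 2 * L ^ 2 * s ^ 2 / 2
    ring

/-- upper tail -/
theorem tail_ge {L : ℝ} {f : (ι → ℝ) → ℝ} (h : Lip2 L f) {t : ℝ} (ht : 0 ≤ t) :
    (gam ι).real {x | (∫ y, f y ∂(gam ι)) + t ≤ f x} ≤ Real.exp (-t ^ 2 / (4 * L ^ 2)) := by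
  have h1 := (subg h).measure_ge_le ht
  have e1 : {x | (∫ y, f y ∂(gam ι)) + t ≤ f x} = {x | t ≤ f x - ∫ y, f y ∂(gam ι)} := by
    ext x
    simp only [Set.mem_ofPred_eq]
    constructor <;> intro h <;> linarith
  rw [e1]
  refine h1.trans (le_of_eq ?_)
  congr 2
  change 2 * (2 * L ^ 2) = 4 * L ^ 2
  ring

theorem Lip2.neg {L : ℝ} {f : (ι → ℝ) → ℝ} (h : Lip2 L f) : Lip2 L (fun x => -f x) := by
  intro x y
  have h1 : (-f x - -f y) ^ 2 = (f x - f y) ^ 2 := by ring
  rw [h1]
  exact h x y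

/-- lower tail -/
theorem tail_le {L : ℝ} {f : (ι → ℝ) → ℝ} (h : Lip2 L f) {t : ℝ} (ht : 0 ≤ t) :
    (gam ι).real {x | f x ≤ (∫ y, f y ∂(gam ι)) - t} ≤ Real.exp (-t ^ 2 / (4 * L ^ 2)) := by
  have h1 := tail_ge h.neg ht
  rw [integral_neg] at h1
  refine le_trans (le_of_eq ?_) h1
  congr 1
  ext x
  simp only [Set.mem_ofPred_eq]
  constructor <;> intro h <;> linarith

theorem integrable_pow_of_lip {L : ℝ} {f : (ι → ℝ) → ℝ} (h : Lip2 L f) (n : ℕ) :
    Integrable (fun x => f x ^ n) (gam ι) := by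
  have h0 : integrableExpSet f (gam ι) = Set.univ := by
    ext s
    simp only [integrableExpSet, Set.mem_ofPred_eq, Set.mem_univ, iff_true]
    exact exp_int h s
  have h1 := integrable_pow_of_mem_interior_integrableExpSet (X := f) (μ := gam ι)
    (by rw [h0]; simp) n
  exact h1

/-- second and fourth moments -/
theorem moments {L : ℝ} {f : (ι → ℝ) → ℝ} (h : Lip2 L f) (h0 : ∫ y, f y ∂(gam ι) = 0) :
    ∫ x, f x ^ 2 ∂(gam ι) ≤ 4 * L ^ 2 ∧ ∫ x, f x ^ 4 ∂(gam ι) ≤ 48 * L ^ 4 := by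
  by_cases hL : L = 0
  · subst hL
    have hc : ∀ x y, f x = f y := by
      intro x y
      have h1 := h x y
      have h4 : (f x - f y) ^ 2 ≤ 0 := by simpa using h1
      nlinarith [sq_nonneg (f x - f y)]
    have hz : ∀ x, f x = 0 := by
      intro x
      have : ∫ y, f y ∂(gam ι) = f x := by
        rw [integral_congr_ae (g := fun _ => f x) (Filter.Eventually.of_forall fun y => hc y x)]
        simp
      rw [← this, h0]
    simp [hz]
  · have hL2 : 0 < L ^ 2 := by positivity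
    set s : ℝ := 1 / |L| with hs
    have hsL : s ^ 2 * L ^ 2 = 1 := by
      rw [hs, div_pow, one_pow, sq_abs]
      field_simp
    have h1 := mgf_le h s
    have h2 := mgf_le h (-s)
    rw [h0] at h1 h2
    simp only [sub_zero] at h1 h2
    have e2 : (-s) ^ 2 * L ^ 2 = 1 := by rw [neg_sq, hsL]
    rw [hsL] at h1
    rw [e2] at h2
    have he : Real.exp 1 ≤ 3 := by linarith [Real.exp_one_lt_d9]
    have i1 := exp_int h s
    have i2 := exp_int h (-s)
    have hcosh : ∀ u : ℝ, 1 + u ^ 2 / 2 + u ^ 4 / 24 ≤ (Real.exp u + Real.exp (-u)) / 2 := by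
      intro u
      have h5 := Real.hasSum_cosh u
      have h6 := h5.summable.sum_le_tsum (Finset.range 3) (fun n _ => by
        rw [pow_mul]
        positivity)
      rw [h5.tsum_eq] at h6
      rw [Real.cosh_eq] at h6
      simp only [Finset.sum_range_succ, Finset.sum_range_zero, Nat.factorial] at h6
      norm_num at h6
      norm_num [Nat.factorial] at h6 ⊢
      linarith
    have hboth : ∫ x, (1 + (s * f x) ^ 2 / 2 + (s * f x) ^ 4 / 24) ∂(gam ι) ≤ 3 := by
      calc ∫ x, (1 + (s * f x) ^ 2 / 2 + (s * f x) ^ 4 / 24) ∂(gam ι)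
          ≤ ∫ x, (Real.exp (s * f x) + Real.exp (-s * f x)) / 2 ∂(gam ι) := by
            refine integral_mono ?_ ((i1.add i2).div_const 2) (fun x => ?_)
            · refine Integrable.add (Integrable.add (integrable_const _) ?_) ?_
              · have := (integrable_pow_of_lip h 2).const_mul (s ^ 2 / 2)
                refine this.congr (Filter.Eventually.of_forall fun x => ?_)
                simp only
                ring
              · have := (integrable_pow_of_lip h 4).const_mul (s ^ 4 / 24)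
                refine this.congr (Filter.Eventually.of_forall fun x => ?_)
                simp only
                ring
            · have := hcosh (s * f x)
              simp only
              rw [show -s * f x = -(s * f x) by ring]
              exact this
        _ = ((∫ x, Real.exp (s * f x) ∂(gam ι)) + ∫ x, Real.exp (-s * f x) ∂(gam ι)) / 2 := by
            rw [integral_div, integral_add i1 i2]
        _ ≤ 3 := by linarith
    have i3 := integrable_pow_of_lip h 2
    have i4 := integrable_pow_of_lip h 4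
    have e3 : ∫ x, (1 + (s * f x) ^ 2 / 2 + (s * f x) ^ 4 / 24) ∂(gam ι) =
        1 + s ^ 2 / 2 * ∫ x, f x ^ 2 ∂(gam ι) + s ^ 4 / 24 * ∫ x, f x ^ 4 ∂(gam ι) := by
      have c2 := i3.const_mul (s ^ 2 / 2)
      have c4 := i4.const_mul (s ^ 4 / 24)
      rw [← integral_const_mul, ← integral_const_mul]
      have c1 : ∫ _x : ι → ℝ, (1 : ℝ) ∂(gam ι) = 1 := by simp
      calc ∫ x, (1 + (s * f x) ^ 2 / 2 + (s * f x) ^ 4 / 24) ∂(gam ι)
          = ∫ x, ((1 + s ^ 2 / 2 * f x ^ 2) + s ^ 4 / 24 * f x ^ 4) ∂(gam ι) :=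
            integral_congr_ae (Filter.Eventually.of_forall fun x => by simp only; ring)
        _ = (∫ x, (1 + s ^ 2 / 2 * f x ^ 2) ∂(gam ι)) + ∫ x, s ^ 4 / 24 * f x ^ 4 ∂(gam ι) :=
            integral_add ((integrable_const _).add c2) c4
        _ = _ := by rw [integral_add (integrable_const _) c2, c1]
    rw [e3] at hboth
    have n2 : 0 ≤ ∫ x, f x ^ 2 ∂(gam ι) := integral_nonneg fun x => sq_nonneg _
    have n4 : 0 ≤ ∫ x, f x ^ 4 ∂(gam ι) := integral_nonneg fun x => by positivity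
    have hs2 : 0 < s ^ 2 := by positivity
    constructor
    · have h7 : s ^ 2 / 2 * ∫ x, f x ^ 2 ∂(gam ι) ≤ 2 := by
        have : 0 ≤ s ^ 4 / 24 * ∫ x, f x ^ 4 ∂(gam ι) := by positivity
        linarith
      have h8 : ∫ x, f x ^ 2 ∂(gam ι) = (s ^ 2 * L ^ 2) * ∫ x, f x ^ 2 ∂(gam ι) := by
        rw [hsL, one_mul]
      rw [h8]
      nlinarith
    · have h7 : s ^ 4 / 24 * ∫ x, f x ^ 4 ∂(gam ι) ≤ 2 := by
        have : 0 ≤ s ^ 2 / 2 * ∫ x, f x ^ 2 ∂(gam ι) := by positivity
        linarith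
      have h8 : ∫ x, f x ^ 4 ∂(gam ι) = (s ^ 2 * L ^ 2) ^ 2 * ∫ x, f x ^ 4 ∂(gam ι) := by
        rw [hsL, one_pow, one_mul]
      rw [h8]
      have h9 : 0 < L ^ 4 := by positivity
      nlinarith

end Pool.Agent.SVG
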